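import Pool.Agent.W_55e385w_h22.Abel

set_option autoImplicit false

/-!
# Expanding subgraphs of groups with a permutational wreath product section

Let `H` be a group acting on a set `X`. We call the action good if there are arbitrarily long
words in finitely many letters of `H` all of whose factors `s₁ ⋯ sₘ` visit linearly many points
`s₁ ⋯ sₖ o`. Let `G` be a finitely generated group some subgroup of which maps onto a
permutational wreath product `A ≀_X H`, where `A ≠ 0` is abelian. If the action is good, then every
Cayley graph of `G` has an infinite subgraph with positive Cheeger constant. If `H` is transitive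
and has subexponential growth, then this condition is also necessary for `G = A ≀_X H`.

The action is good if it has an exponent `p > 1`: for each `r` some random product of at most `r`
generators of `H` moves any given point of `X` to any given point with probability `O(r ^ (-p))`.
The exponents add up under products of actions. One may take `p = 1 / 2` if `H` is finitely
generated and has infinite orbits, `p = D / (D + 1)` if the orbits grow at least like `r ^ D`,
`p = d / 2` if the action satisfies a `d`-dimensional isoperimetric inequality, and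
`p = log 2 / log 3` for Grigorchuk's group acting on an orbit on the boundary of the binary tree.
Therefore the product of any three finitely generated groups with infinite orbits is good, and so
are the product of such a group and Grigorchuk's group, or a group with `D > 1`, and any action
with `d > 2`.
-/

namespace Pool.Agent.Results.MP_55e385_co.PermutationalWreath

/-- `G` has an infinite subgraph `H` with positive Cheeger constant: for some `ε > 0` every
nonempty finite set `S` of vertices of `H` has at least `ε * |S|` edges of `H` leaving it. -/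
def HasExpandingSubgraph {V : Type} (G : SimpleGraph V) : Prop :=
  ∃ H : G.Subgraph, H.verts.Infinite ∧
    ∃ ε : ℝ, 0 < ε ∧
      ∀ S : Finset V, S.Nonempty → (↑S : Set V) ⊆ H.verts →
        ε * (S.card : ℝ) ≤
          (({p : V × V | p.1 ∈ S ∧ p.2 ∉ S ∧ H.Adj p.1 p.2}.ncard : ℕ) : ℝ)

/-- `H` permutes the points of `X` and therefore the finitely supported functions `X →₀ A`:
`(h • f) (h • x) = f x`. -/
noncomputable def lamps (A H X : Type) [AddCommGroup A] [Group H] [MulAction H X] :
    H →* MulAut (Multiplicative (X →₀ A)) where
  toFun h := AddEquiv.toMultiplicative (Finsupp.domCongr (MulAction.toPerm h))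
  map_one' := by
    ext f x
    simp
  map_mul' g h := by
    ext f x
    simp [Finsupp.domCongr_apply, mul_smul]

/-- The permutational wreath product `A ≀_X H`. -/
abbrev Wreath (A H X : Type) [AddCommGroup A] [Group H] [MulAction H X] : Type :=
  Multiplicative (X →₀ A) ⋊[lamps A H X] H

/-- Every Cayley graph of every finitely generated group `G`, some subgroup `K` of which has a
homomorphism onto a wreath product `A ≀_X H` with `A ≠ 0` abelian, has an expanding subgraph. -/
def AllExpand (H X : Type) [Group H] [MulAction H X] : Prop :=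
  ∀ (G : Type) [Group G] (T : Set G), T.Finite → Subgroup.closure T = ⊤ →
    ∀ (A : Type) [AddCommGroup A] [Nontrivial A] (K : Subgroup G) (π : K →* Wreath A H X),
      Function.Surjective π → HasExpandingSubgraph (SimpleGraph.mulCayley T)

/-- The action of `H` on `X` is good: for some finite `S ⊆ H`, some `o ∈ X` and some `Q`, there
are arbitrarily long words `w` in the letters `S` such that for every factor `v = s₁ ⋯ sₘ` of `w`
the points `s₁ ⋯ sₖ • o`, `0 ≤ k ≤ m`, are at least `m / Q` different ones. -/
def Good (H X : Type) [Group H] [MulAction H X] : Prop :=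
  ∃ (S : Finset H) (o : X) (Q : ℕ), ∀ n : ℕ, ∃ w : List H, n ≤ w.length ∧ (∀ s ∈ w, s ∈ S) ∧
    ∀ v, v <:+: w → v.length ≤ Q * {x : X | ∃ u, u <+: v ∧ u.prod • o = x}.ncard

/-- Every finitely generated subgroup of `H` has subexponential growth: for every finite `S ⊆ H`
and `b > 1`, at most `C * b ^ n` elements are products of at most `n` elements of `S`. -/
def Subexp (H : Type) [Group H] : Prop :=
  ∀ (S : Finset H) (b : ℝ), 1 < b → ∃ C : ℝ, ∀ n : ℕ,
    (({g : H | ∃ l : List H, l.length ≤ n ∧ (∀ s ∈ l, s ∈ S) ∧ l.prod = g}.ncard : ℕ) : ℝ) ≤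
      C * b ^ n

/-- `p` is an exponent of the action of `H` on `X`: for some finite `S ⊆ H` and some `C`, for
every `r ≥ 1`, there is a random element of `H` (uniform in a finite family `h`), a product of at
most `r` elements of `S` and inverses of elements of `S`, that moves any given point `x` of `X`
to any given point `y` with probability at most `C * r ^ (-p)`. -/
def Spreads (H X : Type) [Group H] [MulAction H X] (p : ℝ) : Prop :=
  ∃ (S : Finset H) (C : ℝ), ∀ r : ℕ, 1 ≤ r →
    ∃ (ι : Type) (_ : Fintype ι) (_ : Nonempty ι) (h : ι → H),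
      (∀ i, ∃ l : List H, l.length ≤ r ∧ (∀ s ∈ l, s ∈ S ∨ s⁻¹ ∈ S) ∧ l.prod = h i) ∧
      ∀ x y : X, (Nat.card {i // h i • x = y} : ℝ) ≤ C * (r : ℝ) ^ (-p) * Fintype.card ι

/-- The orbits grow at least like `r ^ D`: for some finite `S ⊆ H` and some `c > 0`, for every
`x ∈ X` and `r ≥ 1`, the products of at most `r` elements of `S` and inverses of elements of `S`
move `x` to at least `c * r ^ D` points. -/
def Grows (H X : Type) [Group H] [MulAction H X] (D : ℝ) : Prop :=
  ∃ (S : Finset H) (c : ℝ), 0 < c ∧ ∀ (x : X) (r : ℕ), 1 ≤ r →
    c * (r : ℝ) ^ D ≤ (({y : X | ∃ l : List H, l.length ≤ r ∧ (∀ s ∈ l, s ∈ S ∨ s⁻¹ ∈ S) ∧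
      l.prod • x = y}.ncard : ℕ) : ℝ)

/-- The action satisfies an isoperimetric inequality of dimension `d`: for some finite `S ⊆ H`
and some `c > 0`, for every nonempty finite `A ⊆ X` there are at least `c * |A| ^ (1 - 1 / d)`
pairs `(x, s)` with `x ∈ A`, `s ∈ S` and `s • x ∉ A`. -/
def Isoperimetric (H X : Type) [Group H] [MulAction H X] (d : ℝ) : Prop :=
  ∃ (S : Finset H) (c : ℝ), 0 < c ∧ ∀ A : Finset X, A.Nonempty →
    c * (A.card : ℝ) ^ (1 - 1 / d) ≤
      (({p : X × H | p.1 ∈ A ∧ p.2 ∈ S ∧ p.2 • p.1 ∉ A}.ncard : ℕ) : ℝ)

/-- The states of the automaton that generates Grigorchuk's group. -/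
inductive State
  | e | a | b | c | d

/-- The transitions: `a = (e, e)` followed by the exchange of the two letters, `b = (a, c)`,
`c = (a, d)`, `d = (e, b)`, where the two coordinates belong to the letters `false`, `true`. -/
def next : State → Bool → State
  | .b, false => .a
  | .b, true => .c
  | .c, false => .a
  | .c, true => .d
  | .d, false => .e
  | .d, true => .b
  | .e, _ => .e
  | .a, _ => .e

/-- The state reached from `s` after reading `n` letters of `x`. -/
def state (s : State) (x : ℕ → Bool) : ℕ → State
  | 0 => s
  | n + 1 => next (state s x n) (x n)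

/-- `s` changes exactly those letters of `x` that are read in state `a`. -/
def move (s : State) (x : ℕ → Bool) (n : ℕ) : Bool :=
  match state s x n with
  | .a => !(x n)
  | _ => x n

/-- Grigorchuk's group: the permutations of the infinite binary sequences generated by the
involutions `a`, `b`, `c`, `d` (and `e = 1`). -/
def Grigorchuk : Subgroup (Equiv.Perm (ℕ → Bool)) :=
  Subgroup.closure {f | ∃ s : State, ∀ x, f x = move s x}

/-- The two copies of the states. -/
private def toSt : State → W_55e385w_h22.St
  | .e => .e
  | .a => .a
  | .b => .b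
  | .c => .c
  | .d => .d

private theorem st_eq (s : State) (x : ℕ → Bool) (n : ℕ) :
    W_55e385w_h22.st (toSt s) x n = toSt (state s x n) := by
  induction n with
  | zero => rfl
  | succ n ih =>
    rw [W_55e385w_h22.st, ih, state]
    cases state s x n <;> cases x n <;> rfl

private theorem act_eq (s : State) (x : ℕ → Bool) :
    W_55e385w_h22.act (toSt s) x = move s x := by
  funext n
  rw [W_55e385w_h22.act, st_eq, move]
  cases state s x n <;> rfl

private theorem grig_eq : W_55e385w_h22.grig = Grigorchuk := by
  rw [W_55e385w_h22.grig, Grigorchuk]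
  congr 1
  ext f
  constructor
  · rintro ⟨t, rfl⟩
    obtain ⟨s, rfl⟩ : ∃ s, toSt s = t := by
      cases t
      · exact ⟨.e, rfl⟩
      · exact ⟨.a, rfl⟩
      · exact ⟨.b, rfl⟩
      · exact ⟨.c, rfl⟩
      · exact ⟨.d, rfl⟩
    exact ⟨s, fun x => act_eq s x⟩
  · rintro ⟨s, hs⟩
    refine ⟨toSt s, ?_⟩
    ext x : 1
    rw [hs x]
    exact act_eq s x

private theorem transport {G G' : Subgroup (Equiv.Perm (ℕ → Bool))} (h : G = G') {o : ℕ → Bool}
    {p : ℝ} (hG : W_55e385w_h22.Spreads G (MulAction.orbit G o) p) :
    W_55e385w_h22.Spreads G' (MulAction.orbit G' o) p := by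
  subst h
  exact hG

private theorem good_iff {H X : Type} [Group H] [MulAction H X] :
    W_55e385w_h22.Good H X ↔ Good H X := by
  have key : ∀ (o : X) (v : List H), {x : X | ∃ u, u <+: v ∧ u.prod • o = x}.ncard =
      (W_55e385w_h22.vis o v).card := by
    intro o v
    rw [← Set.ncard_coe_finset]
    congr 1
    ext x
    exact (W_55e385w_h22.vis_iff o v x).symm
  simp only [W_55e385w_h22.Good, Good, key]

/-- (1) Good actions give expanding subgraphs. (2) The converse for transitive groups of
subexponential growth. (3) Actions with an exponent `p > 1` are good. (4)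
Exponents add up under products (which act coordinate by coordinate). (5) Finitely generated
groups with infinite orbits have exponent `1 / 2`. (6) Growth of degree `D` gives the exponent
`D / (D + 1)`. (7) An isoperimetric inequality of dimension `d` gives the exponent `d / 2`. (8)
Grigorchuk's group on an orbit on the boundary has the exponent `log 2 / log 3 > 1 / 2`. -/
theorem result :
    (∀ (H X : Type) [Group H] [MulAction H X], Good H X → AllExpand H X) ∧
    (∀ (A H X : Type) [AddCommGroup A] [Group H] [MulAction H X] [Nonempty X]
      [MulAction.IsPretransitive H X], Subexp H → ∀ T : Set (Wreath A H X), T.Finite →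
      HasExpandingSubgraph (SimpleGraph.mulCayley T) → Good H X) ∧
    (∀ (H X : Type) [Group H] [MulAction H X] [Nonempty X] (p : ℝ), 1 < p →
      Spreads H X p → Good H X) ∧
    (∀ (ι : Type) [Fintype ι] (H X : ι → Type) [∀ i, Group (H i)] [∀ i, MulAction (H i) (X i)]
      (p : ι → ℝ), (∀ i, Spreads (H i) (X i) (p i)) →
      Spreads (∀ i, H i) (∀ i, X i) (∑ i, p i)) ∧
    (∀ (H X : Type) [Group H] [MulAction H X], Group.FG H →
      (∀ x : X, (MulAction.orbit H x).Infinite) → Spreads H X (1 / 2)) ∧
    (∀ (H X : Type) [Group H] [MulAction H X] (D : ℝ), 0 < D → Grows H X D →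
      Spreads H X (D / (D + 1))) ∧
    (∀ (H X : Type) [Group H] [MulAction H X] (d : ℝ), 0 < d → Isoperimetric H X d →
      Spreads H X (d / 2)) ∧
    (∀ o : ℕ → Bool, Spreads Grigorchuk (MulAction.orbit Grigorchuk o) (Real.logb 3 2)) ∧
    1 / 2 < Real.logb 3 2 := by
  refine ⟨?_, ?_, ?_, ?_, ?_, ?_, ?_, ?_, W_55e385w_h22.half_lt⟩
  · intro H X _ _ h G _ T hTf hT A _ _ K π hπ
    exact W_55e385w_h22.expand_of_good (good_iff.2 h) hTf hT K π hπ
  · intro A H X _ _ _ _ _ h T hTf hE
    exact good_iff.1 (W_55e385w_h22.good_of_expand_abel h hTf hE)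
  · intro H X _ _ _ p hp h
    exact good_iff.1 (W_55e385w_h22.good_of_spreads hp h)
  · intro ι _ H X _ _ p h
    exact W_55e385w_h22.spreads_pi p h
  · intro H X _ _ hFG h
    exact W_55e385w_h22.spreads_orbits hFG h
  · intro H X _ _ D hD h
    obtain ⟨S, c, hc, h⟩ := h
    exact W_55e385w_h22.spreads_growth hc hD h
  · intro H X _ _ d hd h
    obtain ⟨S, c, hc, h⟩ := h
    refine W_55e385w_h22.spreads_iso (T := S) hc (half_pos hd) (fun A hA => ?_)
    rw [mul_div_cancel₀ d two_ne_zero]
    exact h A hA
  · intro o
    exact transport grig_eq (W_55e385w_h22.spreads_grig o)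

end Pool.Agent.Results.MP_55e385_co.PermutationalWreath
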