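import Pool.Agent.W_55e385_h22.Fib

set_option autoImplicit false

/-!
# Expanding subgraphs descend along maps with subexponential fibres
-/

namespace Pool.Agent.Results.MP_55e385_co.SubexponentialFibres

/-- `G` has an infinite subgraph `H` with positive Cheeger constant: for some `ε > 0` every
nonempty finite set `S` of vertices of `H` has at least `ε * |S|` edges of `H` leaving it. -/
def HasExpandingSubgraph {V : Type} (G : SimpleGraph V) : Prop :=
  ∃ H : G.Subgraph, H.verts.Infinite ∧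
    ∃ ε : ℝ, 0 < ε ∧
      ∀ S : Finset V, S.Nonempty → (↑S : Set V) ⊆ H.verts →
        ε * (S.card : ℝ) ≤
          (({p : V × V | p.1 ∈ S ∧ p.2 ∉ S ∧ H.Adj p.1 p.2}.ncard : ℕ) : ℝ)

theorem result : ∀ (V W : Type) (G : SimpleGraph V) (G' : SimpleGraph W) (D L : ℕ) (π : W → V),
    G.Connected → G'.Connected →
    (∀ v, (G.neighborSet v).Finite ∧ (G.neighborSet v).ncard ≤ D) →
    (∀ w, (G'.neighborSet w).Finite ∧ (G'.neighborSet w).ncard ≤ D) →
    (∀ x y, G'.Adj x y → G.dist (π x) (π y) ≤ L) →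
    (∀ q : ℝ, 1 < q → ∃ C : ℝ, ∀ (x : W) (v : V) (r : ℕ),
      (({y : W | G'.dist x y ≤ r ∧ π y = v}.ncard : ℕ) : ℝ) ≤ C * q ^ r) →
    HasExpandingSubgraph G' → HasExpandingSubgraph G :=
  fun _ _ _ _ _ _ _ hG hG' hD hD' hL hf h =>
    W_55e385_h22.subgraph_descends hG hG' hD hD' hL hf h

end Pool.Agent.Results.MP_55e385_co.SubexponentialFibres
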