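import Pool.Agent.W_55e385_h22.Trans

set_option autoImplicit false

/-!
# Expanding subgraphs and unpredictable paths

A graph of bounded degree has an infinite subgraph with positive Cheeger constant if and only if
it carries a random path with bounded steps whose position `a` steps ahead is, given any past, at
each vertex with probability at most `C * ρ ^ a`, where `ρ < 1`. In a vertex-transitive graph it
is enough that such random paths of every finite length exist, with the same constants.
-/

namespace Pool.Agent.Results.MP_55e385_co.UnpredictablePaths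

open scoped ENNReal NNReal
open MeasureTheory

/-- `G` has an infinite subgraph `H` with positive Cheeger constant: for some `ε > 0` every
nonempty finite set `S` of vertices of `H` has at least `ε * |S|` edges of `H` leaving it. -/
def HasExpandingSubgraph {V : Type} (G : SimpleGraph V) : Prop :=
  ∃ H : G.Subgraph, H.verts.Infinite ∧
    ∃ ε : ℝ, 0 < ε ∧
      ∀ S : Finset V, S.Nonempty → (↑S : Set V) ⊆ H.verts →
        ε * (S.card : ℝ) ≤
          (({p : V × V | p.1 ∈ S ∧ p.2 ∉ S ∧ H.Adj p.1 p.2}.ncard : ℕ) : ℝ)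

/-- The random vertices `X 0, X 1, ..., X N` of `G` form a path with steps of length at most `R`
(in the graph distance), and for all `m`, `a` with `m + a ≤ N`, conditionally on any values of
`X 0, ..., X m`, the vertex `X (m + a)` is equal to any given vertex `y` with probability at most
`C * ρ ^ a`. -/
def Unpredictable {V Ω : Type} [MeasurableSpace Ω] (G : SimpleGraph V) (R : ℕ) (C ρ : ℝ≥0)
    (N : ℕ) (μ : Measure Ω) (X : ℕ → Ω → V) : Prop :=
  (∀ n y, MeasurableSet {ω | X n ω = y}) ∧
  (∀ n, n < N → ∀ᵐ ω ∂μ, G.dist (X n ω) (X (n + 1) ω) ≤ R) ∧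
  ∀ m a, m + a ≤ N → ∀ (x : ℕ → V) (y : V),
    μ {ω | (∀ i ≤ m, X i ω = x i) ∧ X (m + a) ω = y} ≤
      C * (ρ : ℝ≥0∞) ^ a * μ {ω | ∀ i ≤ m, X i ω = x i}

theorem result :
    (∀ (V : Type) (G : SimpleGraph V) (D : ℕ), G.Connected →
      (∀ v, (G.neighborSet v).Finite ∧ (G.neighborSet v).ncard ≤ D) →
      (HasExpandingSubgraph G ↔
        ∃ (R : ℕ) (C ρ : ℝ≥0), ρ < 1 ∧
          ∃ (Ω : Type) (_ : MeasurableSpace Ω) (μ : Measure Ω) (X : ℕ → Ω → V),
            IsProbabilityMeasure μ ∧ ∀ N, Unpredictable G R C ρ N μ X)) ∧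
    (∀ (V : Type) (G : SimpleGraph V), G.Connected →
      (∀ v, (G.neighborSet v).Finite) → (∀ u v : V, ∃ φ : G ≃g G, φ u = v) →
      (HasExpandingSubgraph G ↔
        ∃ (R : ℕ) (C ρ : ℝ≥0), ρ < 1 ∧ ∀ N,
          ∃ (Ω : Type) (_ : MeasurableSpace Ω) (μ : Measure Ω) (X : ℕ → Ω → V),
            IsProbabilityMeasure μ ∧ Unpredictable G R C ρ N μ X)) :=
  ⟨fun _ _ _ hG hD => W_55e385_h22.iff_process hG hD,
    fun _ _ hG hf ht => W_55e385_h22.iff_finite hG hf ht⟩

end Pool.Agent.Results.MP_55e385_co.UnpredictablePaths
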