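import Pool.Agent.W_MP_55e385_h66.Cheeger
import Pool.Agent.W_MP_55e385_h66.Growth

set_option autoImplicit false

/-!
# MP_55e385_co: the weighted version of the question

For a transitive graph with growth rate `g > 1` the largest Cheeger constant of bounded edge weights
is `(g - 1) / (g + 1)`, and it is attained by weights on a spanning tree.
-/

namespace Pool.Agent.Results.MP_55e385_co.WeightedCheeger

open Pool.Agent.W_MP_55e385_h66

/-- Bounded edge weights on `G`, not identically zero. -/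
def IsWeight {V : Type} (G : SimpleGraph V) (w : V → V → ℝ) : Prop :=
  (∀ x y, w x y = w y x) ∧ (∀ x y, 0 ≤ w x y) ∧ (∃ K : ℝ, ∀ x y, w x y ≤ K) ∧
    (∀ x y, ¬ G.Adj x y → w x y = 0) ∧ ∃ x y, w x y ≠ 0

open Classical in
/-- The weighted Cheeger constant is at least `ε`: for every finite `S` the weight of the edges
leaving `S` is at least `ε` times the sum over `x` in `S` of the total weight of the edges at `x`. -/
def CheegerGE {V : Type} (G : SimpleGraph V) (hf : ∀ v : V, (G.neighborSet v).Finite)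
    (w : V → V → ℝ) (ε : ℝ) : Prop :=
  ∀ S : Finset V, ε * ∑ x ∈ S, ∑ y ∈ (hf x).toFinset, w x y
    ≤ ∑ x ∈ S, ∑ y ∈ (hf x).toFinset \ S, w x y

theorem result :
    ∀ (V : Type) (G : SimpleGraph V),
      G.Connected →
      ∀ hf : (∀ v : V, (G.neighborSet v).Finite),
      (∀ u v : V, ∃ φ : G ≃g G, φ u = v) →
      (∃ c : ℝ, 1 < c ∧ ∃ v : V, ∀ n : ℕ,
          c ^ n ≤ (({w : V | G.dist v w ≤ n}.ncard : ℕ) : ℝ)) →
      ∃ g : ℝ, 1 < g ∧
        (∀ v : V, Filter.Tendsto
          (fun n : ℕ => (({w : V | G.dist v w ≤ n}.ncard : ℕ) : ℝ) ^ ((1 : ℝ) / (n : ℝ)))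
          Filter.atTop (nhds g)) ∧
        (∀ o : V, ∃ (T : SimpleGraph V) (w : V → V → ℝ), T ≤ G ∧ T.IsTree ∧ IsWeight G w ∧
          (∀ x y, w x y ≤ 1) ∧ (∀ x y, ¬ T.Adj x y → w x y = 0) ∧
          g ≤ ∑ y ∈ (hf o).toFinset, w o y ∧ CheegerGE G hf w ((g - 1) / (g + 1))) ∧
        (∀ (w : V → V → ℝ) (ε : ℝ), IsWeight G w → CheegerGE G hf w ε →
          ε ≤ (g - 1) / (g + 1)) := by
  intro V G hG hf ht hgr
  obtain ⟨c, hc, v, hv⟩ := hgr
  obtain ⟨g, hcg, htend, hlow⟩ := growth G hG hf ht v c hc hv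
  have hg : 1 < g := lt_of_lt_of_le hc hcg
  have hg0 : 0 < g := by linarith
  have hball : ∀ (x : V) (n : ℕ), {w : V | G.dist x w ≤ n}.ncard = {w : V | G.dist v w ≤ n}.ncard :=
    fun x n => ball_ncard G hG ht x v n
  refine ⟨g, hg, ?_, ?_, ?_⟩
  · intro x
    have h1 := (Real.continuous_exp.tendsto _).comp htend
    rw [Real.exp_log hg0] at h1
    refine h1.congr (fun n => ?_)
    have hb : (0 : ℝ) < (({w : V | G.dist v w ≤ n}.ncard : ℕ) : ℝ) := by
      exact_mod_cast ball_pos G hG hf v n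
    rw [hball x n, Real.rpow_def_of_pos hb, Function.comp_apply, mul_one_div]
  · intro o
    obtain ⟨φ, h0, h1, hφo, hφ⟩ := exists_phi G hG hf ht o g hg (fun n => by
      rw [hball o n]; exact hlow n)
    have hroot : g ≤ ∑ y ∈ (hf o).toFinset, wt G hG hf o φ o y := by
      have h2 := hφ o
      rw [hφo, mul_one] at h2
      exact h2.trans (deg_ge G hG hf o φ h0 o)
    refine ⟨tr G hG o, wt G hG hf o φ, tr_le G hG o, tr_isTree G hG o, ?_, ?_, ?_, hroot, ?_⟩
    · refine ⟨wt_symm G hG hf o φ, wt_nonneg G hG hf o φ h0, ⟨1, wt_le_one G hG hf o φ h1⟩, ?_, ?_⟩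
      · intro x y hxy
        exact wt_tr G hG hf o φ x y (fun h => hxy (tr_le G hG o h))
      · by_contra hcon
        simp only [not_exists, not_not] at hcon
        rw [Finset.sum_eq_zero (fun y _ => hcon o y)] at hroot
        linarith
    · exact wt_le_one G hG hf o φ h1
    · exact wt_tr G hG hf o φ
    · intro S
      exact cheeger G hG hf o φ h0 g hg hφ S
  · rintro w ε ⟨hs, h0, ⟨K, hK⟩, hadj, x, y, hxy⟩ hε
    exact upper G hG hf ht v g hg htend w hs h0 K hK hadj x y hxy ε hε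

end Pool.Agent.Results.MP_55e385_co.WeightedCheeger
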